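import Pool.Agent.Lib.MP_befe0b_co.L3Main

/-! Turán numbers of bipartite graphs with a separated feedback vertex set. -/

theorem Pool.Agent.Variants.MP_befe0b_co.FeedbackSet.result :
    ∀ (k : ℕ), 1 ≤ k → ∀ (v : ℕ) (H : SimpleGraph (Fin v)) (A : Set (Fin v))
      (c : H.Coloring Bool), (∀ a ∈ A, c a = true) → ((2 * k : ℕ) : ℕ∞) ≤ H.egirth →
        (∀ a ∈ A, ∀ b ∈ A, a ≠ b → ((2 * k : ℕ) : ℕ∞) ≤ H.edist a b) →
        (H.induce Aᶜ).IsAcyclic →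
        ∃ C : ℝ, ∀ n : ℕ, (SimpleGraph.extremalNumber n H : ℝ) ≤ C * (n : ℝ) ^ (1 + (k : ℝ)⁻¹) :=
  fun _ hk _ H A c hc hg hd hf =>
    (Pool.Agent.Lib.MP_befe0b_co.upper_fvs H hk A c hc hg hd hf).imp fun _ h => h.2
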