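import Pool.Agent.Lib.MP_befe0b_co.Glue

namespace Pool.Agent.Variants.MP_befe0b_co.GluedTrees

open Pool.Agent.Lib.MP_befe0b_co
open scoped Classical

/-- If every `F i` has a tree of glued copies containing some `H j`, then every graph without the
`H j` has a subgraph with a fixed share of the edges and without the `F i`. -/
theorem result (k l : ℕ) (v : Fin k → ℕ) (w : Fin l → ℕ) (F : ∀ i, SimpleGraph (Fin (v i)))
    (H : ∀ j, SimpleGraph (Fin (w j))) (hv : ∀ i, 0 < v i) (hF : ∀ i x, ∃ y, (F i).Adj x y)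
    (hH : ∀ j x, ∃ y, (H j).Adj x y)
    (h : ∀ (i : Fin k) (c : (F i).Coloring Bool), ∃ (j : Fin l) (κ : ℕ → Bool) (T : SimpleGraph ℕ),
      GlueTree (F i) c κ T ∧ (H j).IsContained T) :
    ∃ ε : ℝ, 0 < ε ∧ ∀ (n : ℕ) (G : SimpleGraph (Fin n)), (∀ j, (H j).Free G) →
      ∃ G' : SimpleGraph (Fin n), G' ≤ G ∧ (∀ i, (F i).Free G') ∧
        ε * G.edgeSet.ncard ≤ G'.edgeSet.ncard := by
  obtain ⟨C, h0, hC⟩ := glue_all (ι := Σ i, Fin (v i) → Bool)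
    (Finset.univ.filter fun p => ∀ x y, (F p.1).Adj x y → p.2 x ≠ p.2 y)
    (fun n χ G => (∀ j, (H j).Free G) ∧ ∀ a b, G.Adj a b → χ a ≠ χ b)
    (fun p n χ G => ∀ ψ, ¬ TCopy (F p.1) p.2 G χ ψ)
    (fun n χ G G' hle hG => ⟨fun j hj => hG.1 j (hj.mono_right hle), fun a b hab => hG.2 a b (hle hab)⟩)
    (fun p n χ G G' hle hG ψ hψ => hG ψ ⟨hψ.1, fun x y hxy => hle (hψ.2.1 x y hxy), hψ.2.2⟩)
    (by
      rintro ⟨i, c⟩ hp
      have hc := (Finset.mem_filter.1 hp).2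
      obtain ⟨j, κ, T, hT, ⟨f⟩⟩ := h i (SimpleGraph.Coloring.mk c fun {x y} => hc x y)
      have : Nonempty (Fin (v i)) := ⟨⟨0, hv i⟩⟩
      obtain ⟨C, h0, hC⟩ := hT.dichotomy (hF i) hc
      refine ⟨C, h0, fun n χ G hG => (hC (Fin n) χ G hG.2).resolve_right ?_⟩
      rintro ⟨θ, h1, h2, -⟩
      have hs : ∀ x, f x ∈ T.support := fun x => (hH j x).elim fun y hy => ⟨_, f.toHom.map_adj hy⟩
      exact hG.1 j ⟨⟨⟨fun x => θ (f x), fun hxy => h2 _ _ (f.toHom.map_adj hxy)⟩,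
        fun x y e => f.injective (h1 (hs x) (hs y) e)⟩⟩)
  refine ⟨1 / (4 * C + 1), by positivity, fun n G hG => ?_⟩
  obtain ⟨χ, G₁, a1, a2, a3⟩ := glue_bip G
  obtain ⟨G₂, b1, b2, b3⟩ := hC n χ G₁ ⟨fun j hj => hG j (hj.mono_right a1), a2⟩
  refine ⟨G₂, b1.trans a1, fun i ⟨f⟩ => ?_, ?_⟩
  · exact b3 ⟨i, fun x => χ (f x)⟩ (Finset.mem_filter.2 ⟨Finset.mem_univ _,
      fun x y hxy => a2 _ _ (b1 (f.toHom.map_adj hxy))⟩) f
      ⟨f.injective, fun x y hxy => f.toHom.map_adj hxy, fun _ => rfl⟩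
  · simp only [gm_eq] at a3 b2
    rw [one_div, inv_mul_le_iff₀ (by positivity)]
    nlinarith [(Nat.cast_nonneg G₂.edgeSet.ncard : (0 : ℝ) ≤ _)]

end Pool.Agent.Variants.MP_befe0b_co.GluedTrees
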