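import Pool.Agent.Lib.MP_befe0b_co.L2Main

/-! Approximate compactness for Turán exponents near one, with a linear loss. -/

open Filter

theorem Pool.Agent.Variants.MP_befe0b_co.NearOneLinear.result :
    ∀ ε : ℝ, 0 < ε → ε < 1 →
      ∀ (k : ℕ) (v : Fin k → ℕ) (H : ∀ i : Fin k, SimpleGraph (Fin (v i))) (A : ℝ),
        (∃ᶠ n : ℕ in atTop, ∀ G : SimpleGraph (Fin n), (∀ i, (H i).Free G) →
          (G.edgeSet.ncard : ℝ) ≤ A * (n : ℝ) ^ (1 + ε)) →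
        ∃ (i : Fin k) (A' : ℝ), ∀ n : ℕ, (SimpleGraph.extremalNumber n (H i) : ℝ) ≤
          A' * (n : ℝ) ^ (1 + 22000 * ε) :=
  fun _ h0 h1 _ _ H _ h => Pool.Agent.Lib.MP_befe0b_co.near_one_lin H h0 h1 h
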