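import Pool.Agent.Lib.MP_befe0b_co.RX.Final

/-! Every rational in `[1, 2)` is the exponent of a Bukh–Conlon family and of one of its members. -/

open Filter Topology Pool.Agent.Lib.MP_befe0b_co.RX

theorem Pool.Agent.Variants.MP_befe0b_co.RationalExponents.result :
    ∀ r : ℚ, 1 ≤ r → r < 2 →
      ∃ (ι ϱ : Type) (_ : Fintype ι) (_ : Fintype ϱ) (F : SimpleGraph (ι ⊕ ϱ)) (p : ℕ) (c : ℝ),
        Nonempty ι ∧ 0 < c ∧
        (∀ S : Finset ι,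
          (S.card : ℝ) ≤ (2 - r) * {e ∈ F.edgeSet | ∃ s ∈ S, Sum.inl s ∈ e}.ncard) ∧
        (Fintype.card ι : ℝ) = (2 - r) * {e ∈ F.edgeSet | ∃ s, Sum.inl s ∈ e}.ncard ∧
        (∀ q : ℕ, p ≤ q → (rpw F q).Colorable 2 ∧ ∃ C : ℝ, ∀ᶠ n : ℕ in atTop,
          c * (n : ℝ) ^ (r : ℝ) ≤ SimpleGraph.extremalNumber n (rpw F q) ∧
          (SimpleGraph.extremalNumber n (rpw F q) : ℝ) ≤ C * (n : ℝ) ^ (r : ℝ)) ∧
        (∀ᶠ n : ℕ in atTop, ∃ G : SimpleGraph (Fin n),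
          c * (n : ℝ) ^ (r : ℝ) ≤ G.edgeSet.ncard ∧ ∀ φ : Fin p → F.Copy G,
            (∀ s t x, φ s (.inr x) = φ t (.inr x)) → ¬ Function.Injective φ) ∧
        ∀ (m : ℕ) (w : Fin m → ℕ) (H : ∀ i, SimpleGraph (Fin (w i))) (a b : Fin m → ℝ) (α β : ℝ),
          (∀ i, ∃ φ : Fin p → F.Copy (H i),
            (∀ s t x, φ s (.inr x) = φ t (.inr x)) ∧ Function.Injective φ) →
          (∃ i q, (H i).IsContained (rpw F q)) →
          (∀ i, 0 < b i ∧ Tendsto (fun n : ℕ =>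
            (SimpleGraph.extremalNumber n (H i) : ℝ) / (n : ℝ) ^ a i) atTop (𝓝 (b i))) →
          0 < β → Tendsto (fun n : ℕ => ((sSup {e : ℕ | ∃ G : SimpleGraph (Fin n),
            (∀ i, (H i).Free G) ∧ G.edgeSet.ncard = e} : ℕ) : ℝ) / (n : ℝ) ^ α) atTop (𝓝 β) →
          IsLeast (Set.range a) α ∧ α = r := by
  intro r h1 h2
  obtain ⟨ι, ϱ, _, _, F, p, c, ⟨s₀⟩, hc, b1, b2, hu, hl⟩ := all_rat r h1 h2
  refine ⟨ι, ϱ, inferInstance, inferInstance, F, p, c, ⟨s₀⟩, hc, b1, b2, fun q hq =>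
    ⟨(hu q).1, (hu q).2.imp fun C hC => hl.mono fun n ⟨G, g1, g2⟩ =>
      ⟨g1.trans (Nat.cast_le.2 (fin_ex (fin_free Sum.inr g2 ?_))), hC n⟩⟩,
    hl, fin_family hc (fun q => (hu q).2) hl⟩
  obtain ⟨φ, f1, f2⟩ := fin_self (F := F) s₀ q
  exact ⟨fun i => φ (i.castLE hq), fun _ _ => f1 _ _, f2.comp (Fin.castLE_injective hq)⟩
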